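import Pool.Agent.H63.CM.Defs

/-!
# Exponential tails

`X P m` is an indicator with mean `p = 1 / log m`; `E exp (t w X) = 1 + p (exp (t w) - 1) ≤ exp (p (exp (t w) - 1))`, independence
(`iIndepSet.iIndepFun_indicator`, `iIndepFun.mgf_sum`), Chernoff (`measure_le_le_exp_mul_mgf`, `measure_ge_le_exp_mul_mgf`).
-/

set_option autoImplicit false

open Filter Real MeasureTheory ProbabilityTheory

namespace Pool.Agent.H63.CM

variable {Ω : Type*} [MeasurableSpace Ω] {μ : Measure Ω} [IsProbabilityMeasure μ] {P : Ω → Set ℕ}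

omit [IsProbabilityMeasure μ] in
theorem meas_X (h : IsCramer μ P) (m : ℕ) : Measurable (X P m) :=
  measurable_const.indicator (h.meas m)

omit [IsProbabilityMeasure μ] in
theorem indep_wX (h : IsCramer μ P) (w : ℕ → ℝ) : iIndepFun (fun m ω => w m * X P m ω) μ := by
  have h1 : iIndepFun (fun m => X P m) μ := iIndepSet.iIndepFun_indicator (β := ℝ) h.indep
  exact h1.comp (fun m x => w m * x) fun m => measurable_const.mul measurable_id

theorem exp_X (P : Ω → Set ℕ) (w : ℕ → ℝ) (t : ℝ) (m : ℕ) (ω : Ω) :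
    exp (t * (w m * X P m ω)) = 1 + {ω | m ∈ P ω}.indicator (fun _ => exp (t * w m) - 1) ω := by
  unfold X
  by_cases hm : ω ∈ {ω | m ∈ P ω}
  · rw [Set.indicator_of_mem hm, Set.indicator_of_mem hm, mul_one]
    ring
  · rw [Set.indicator_of_notMem hm, Set.indicator_of_notMem hm, mul_zero, mul_zero, exp_zero, add_zero]

theorem mgf_X (h : IsCramer μ P) (w : ℕ → ℝ) (t : ℝ) {m : ℕ} (hm : 3 ≤ m) :
    mgf (fun ω => w m * X P m ω) μ t = 1 + (1 / log m) * (exp (t * w m) - 1) := by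
  unfold mgf
  have h1 : (fun ω => exp (t * (w m * X P m ω))) =
      fun ω => 1 + {ω | m ∈ P ω}.indicator (fun _ => exp (t * w m) - 1) ω := by
    funext ω
    exact exp_X P w t m ω
  rw [h1, integral_add (integrable_const _) ((integrable_const _).indicator (h.meas m)),
    integral_indicator_const _ (h.meas m)]
  have h2 : μ.real {ω | m ∈ P ω} = 1 / log m := by
    unfold Measure.real
    rw [h.prob m hm, ENNReal.toReal_ofReal]
    have : 0 ≤ log (m : ℝ) := Real.log_natCast_nonneg m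
    positivity
  rw [h2]
  simp

theorem int_X (h : IsCramer μ P) (S : Finset ℕ) (w : ℕ → ℝ) (t : ℝ) :
    Integrable (fun ω => exp (t * (∑ m ∈ S, fun ω => w m * X P m ω) ω)) μ := by
  have hmeas : ∀ m, Measurable (fun ω => w m * X P m ω) := fun m => measurable_const.mul (meas_X h m)
  apply (indep_wX h w).integrable_exp_mul_sum hmeas
  intro m _
  have h1 : (fun ω => exp (t * (w m * X P m ω))) =
      fun ω => 1 + {ω | m ∈ P ω}.indicator (fun _ => exp (t * w m) - 1) ω := by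
    funext ω
    exact exp_X P w t m ω
  rw [h1]
  exact (integrable_const _).add ((integrable_const _).indicator (h.meas m))

theorem mgf_le (h : IsCramer μ P) (S : Finset ℕ) (hS : ∀ m ∈ S, 3 ≤ m) (w : ℕ → ℝ) (t : ℝ) :
    mgf (∑ m ∈ S, fun ω => w m * X P m ω) μ t ≤ exp (∑ m ∈ S, (1 / log m) * (exp (t * w m) - 1)) := by
  have hmeas : ∀ m, Measurable (fun ω => w m * X P m ω) := fun m => measurable_const.mul (meas_X h m)
  rw [(indep_wX h w).mgf_sum hmeas S, exp_sum]
  apply Finset.prod_le_prod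
  · intro m _
    exact mgf_nonneg
  · intro m hm
    rw [mgf_X h w t (hS m hm)]
    have := add_one_le_exp ((1 / log m) * (exp (t * w m) - 1))
    linarith

theorem low_tail (h : IsCramer μ P) (S : Finset ℕ) (hS : ∀ m ∈ S, 3 ≤ m) (w : ℕ → ℝ) (a : ℝ) {lam : ℝ} (hl : 0 ≤ lam) :
    μ.real {ω | ∑ m ∈ S, w m * X P m ω ≤ a} ≤ exp (lam * a + ∑ m ∈ S, (1 / log m) * (exp (-(lam * w m)) - 1)) := by
  have h1 := measure_le_le_exp_mul_mgf (μ := μ) (X := ∑ m ∈ S, fun ω => w m * X P m ω) a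
    (neg_nonpos.2 hl) (int_X h S w (-lam))
  have h2 := mgf_le h S hS w (-lam)
  have h3 : {ω | ∑ m ∈ S, w m * X P m ω ≤ a} = {ω | (∑ m ∈ S, fun ω => w m * X P m ω) ω ≤ a} := by
    ext ω
    simp only [Set.mem_setOf_eq, Finset.sum_apply]
  rw [h3]
  refine h1.trans ?_
  rw [exp_add]
  have h4 : - -lam * a = lam * a := by ring
  rw [h4]
  apply mul_le_mul_of_nonneg_left _ (exp_pos _).le
  refine h2.trans (le_of_eq ?_)
  congr 1
  apply Finset.sum_congr rfl
  intro m _
  rw [neg_mul]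

theorem up_tail (h : IsCramer μ P) (S : Finset ℕ) (hS : ∀ m ∈ S, 3 ≤ m) (w : ℕ → ℝ) (a : ℝ) {lam : ℝ} (hl : 0 ≤ lam) :
    μ.real {ω | a ≤ ∑ m ∈ S, w m * X P m ω} ≤ exp (-(lam * a) + ∑ m ∈ S, (1 / log m) * (exp (lam * w m) - 1)) := by
  have h1 := measure_ge_le_exp_mul_mgf (μ := μ) (X := ∑ m ∈ S, fun ω => w m * X P m ω) a
    hl (int_X h S w lam)
  have h2 := mgf_le h S hS w lam
  have h3 : {ω | a ≤ ∑ m ∈ S, w m * X P m ω} = {ω | a ≤ (∑ m ∈ S, fun ω => w m * X P m ω) ω} := by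
    ext ω
    simp only [Set.mem_setOf_eq, Finset.sum_apply]
  rw [h3]
  refine h1.trans ?_
  rw [exp_add, neg_mul]
  exact mul_le_mul_of_nonneg_left h2 (exp_pos _).le

end Pool.Agent.H63.CM
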